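import Mathlib

set_option autoImplicit false

namespace Pool.Agent.K4H28.Surj

theorem sep : ∀ (N : Type) [CommMonoid N] [Monoid.FG N] (a b : N), a ≠ b →
    ∃ (Q : Type) (_ : CommMonoid Q) (_ : Finite Q) (f : N →* Q), f a ≠ f b := by
  intro N _ _ a b hab
  classical
  have hft : Algebra.FiniteType (ZMod 2) (MonoidAlgebra (ZMod 2) N) := inferInstance
  have hnoe : IsNoetherianRing (MonoidAlgebra (ZMod 2) N) :=
    Algebra.FiniteType.isNoetherianRing (ZMod 2) _
  obtain ⟨r, hrd⟩ : ∃ r, MonoidAlgebra.of (ZMod 2) N a - MonoidAlgebra.of (ZMod 2) N b = r := ⟨_, rfl⟩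
  have hr : r ≠ 0 := by
    rw [← hrd]
    exact sub_ne_zero.2 (MonoidAlgebra.of_injective.ne hab)
  have hI : Ideal.torsionOf (MonoidAlgebra (ZMod 2) N) (MonoidAlgebra (ZMod 2) N) r ≠ ⊤ := by
    intro h
    have h1 : (1 : MonoidAlgebra (ZMod 2) N) ∈ Ideal.torsionOf _ _ r := by
      rw [h]
      trivial
    rw [Ideal.mem_torsionOf_iff, one_smul] at h1
    exact hr h1
  obtain ⟨m, hm, hIm⟩ := Ideal.exists_le_maximal _ hI
  obtain ⟨n, hn⟩ : ∃ n : ℕ, r ∉ m ^ n := by
    by_contra hcon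
    push Not at hcon
    have h1 : r ∈ (⨅ i : ℕ, m ^ i • (⊤ : Submodule (MonoidAlgebra (ZMod 2) N)
        (MonoidAlgebra (ZMod 2) N))) := by
      rw [Submodule.mem_iInf]
      intro i
      have := hcon i
      rw [smul_eq_mul, Ideal.mul_top]
      exact this
    rw [Ideal.mem_iInf_smul_pow_eq_bot_iff] at h1
    obtain ⟨x, hx⟩ := h1
    have h2 : (1 - (x : MonoidAlgebra (ZMod 2) N)) ∈ m := by
      apply hIm
      rw [Ideal.mem_torsionOf_iff, sub_smul, one_smul, hx, sub_self]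
    have h3 : (1 : MonoidAlgebra (ZMod 2) N) ∈ m := by
      have := m.add_mem h2 x.2
      rwa [sub_add_cancel] at this
    exact hm.ne_top ((Ideal.eq_top_iff_one m).2 h3)
  have hfin : Finite (MonoidAlgebra (ZMod 2) N ⧸ m) := by
    letI := Ideal.Quotient.field m
    have h1 : Algebra.FiniteType (ZMod 2) (MonoidAlgebra (ZMod 2) N ⧸ m) := inferInstance
    have h2 : Module.Finite (ZMod 2) (MonoidAlgebra (ZMod 2) N ⧸ m) :=
      finite_of_finite_type_of_isJacobsonRing (ZMod 2) _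
    exact Module.finite_of_finite (ZMod 2)
  have hfin2 : Finite (MonoidAlgebra (ZMod 2) N ⧸ m ^ n) :=
    Ideal.finite_quotient_pow (IsNoetherian.noetherian m) n
  refine ⟨MonoidAlgebra (ZMod 2) N ⧸ m ^ n, inferInstance, hfin2,
    ((Ideal.Quotient.mk (m ^ n)) : _ →* _).comp (MonoidAlgebra.of (ZMod 2) N), ?_⟩
  intro h
  apply hn
  rw [← hrd]
  exact Ideal.Quotient.eq.1 h

end Pool.Agent.K4H28.Surj
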